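import Mathlib
import Pool.Agent.W845.GI.Fin

set_option autoImplicit false

namespace Pool.Agent.V11125.Acc

open Finset

/-- The edge, as a 2-element set of vertices, between positions `i` and `i + 1` (cyclically) of
the cyclic ordering `σ 0, σ 1, …, σ (n - 1)` of `Fin n`. -/
def cedge {n : ℕ} (σ : Equiv.Perm (Fin n)) (i : Fin n) : Finset (Fin n) :=
  {σ i, σ (finRotate n i)}

/-- The Hamilton cycle of `K_n` given by the cyclic ordering `σ` is `(2,2)`-acceptable with
respect to `F`: no two vertex-disjoint edges of it have their union in `F`. -/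
def Acceptable {n : ℕ} (F : Finset (Finset (Fin n))) (σ : Equiv.Perm (Fin n)) : Prop :=
  ∀ i j : Fin n, Disjoint (cedge σ i) (cedge σ j) → cedge σ i ∪ cedge σ j ∉ F

/-- The number of members of `F` containing the set `D`. -/
def setDeg {n : ℕ} (F : Finset (Finset (Fin n))) (D : Finset (Fin n)) : ℕ :=
  (F.filter (fun X => D ⊆ X)).card

theorem walk_edge {V : Type*} {G : SimpleGraph V} : ∀ {u v : V} (p : G.Walk u v) (i : ℕ),
    i < p.length → s(p.getVert i, p.getVert (i + 1)) ∈ p.edges := by
  intro u v p
  induction p with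
  | nil => intro i hi; simp at hi
  | cons h p ih =>
    intro i hi
    rcases i with _ | i
    · simp
    · simp only [SimpleGraph.Walk.getVert_cons_succ, SimpleGraph.Walk.edges_cons, List.mem_cons]
      right
      exact ih i (by simpa using hi)

theorem perm_of_walk {n : ℕ} {G : SimpleGraph (Fin n)} {u : Fin n} (p : G.Walk u u)
    (hp : p.IsHamiltonianCycle) :
    ∃ σ : Equiv.Perm (Fin n), ∀ i, s(σ i, σ (finRotate n i)) ∈ p.edges := by
  classical
  have hlen : p.length = n := by
    have := hp.length_eq
    simpa using this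
  have hinj : Function.Injective (fun i : Fin n => p.getVert i) := by
    intro i j h
    have := hp.isCycle.getVert_injOn'
    have hi : (i : ℕ) ∈ {k | k ≤ p.length - 1} := by
      show (i : ℕ) ≤ p.length - 1
      have := i.2
      omega
    have hj : (j : ℕ) ∈ {k | k ≤ p.length - 1} := by
      show (j : ℕ) ≤ p.length - 1
      have := j.2
      omega
    exact Fin.ext (this hi hj h)
  let σ : Equiv.Perm (Fin n) := Equiv.ofBijective _ (Finite.injective_iff_bijective.1 hinj)
  refine ⟨σ, ?_⟩
  intro i
  have hσ : ∀ k : Fin n, σ k = p.getVert k := fun k => rfl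
  rw [hσ, hσ]
  obtain ⟨m, rfl⟩ : ∃ m, n = m + 1 := ⟨n - 1, by have := i.2; omega⟩
  by_cases hi : i = Fin.last m
  · subst hi
    rw [finRotate_last]
    have h1 := walk_edge p m (by omega)
    have h2 : p.getVert (m + 1) = p.getVert 0 := by
      rw [p.getVert_zero]
      exact p.getVert_of_length_le (by omega)
    rw [h2] at h1
    simpa using h1
  · rw [coe_finRotate_of_ne_last hi]
    exact walk_edge p i (by have := i.2; omega)

/-- The constant of the starting theorem about incompatibility systems in Dirac graphs. -/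
theorem exists_mu : ∃ μ : ℝ, 0 < μ ∧ ∀ n : ℕ, 4 ≤ n → ∀ F : Finset (Finset (Fin n)),
    (∀ X ∈ F, X.card = 4) →
    (∀ v : Fin n, 4 * ((univ : Finset (Fin n)).filter
      (fun w => w ≠ v ∧ μ * (n : ℝ) < (setDeg F {v, w} : ℝ))).card ≤ n) →
    ∃ σ : Equiv.Perm (Fin n), Acceptable F σ := by
  classical
  obtain ⟨μ, hμ, hmain⟩ := Pool.Agent.W845.GI.t_fin
  refine ⟨μ, hμ, ?_⟩
  intro n hn F hF hheavy
  -- the graph of light pairs
  let G : SimpleGraph (Fin n) :=
    { Adj := fun v w => v ≠ w ∧ ((setDeg F {v, w} : ℝ) ≤ μ * n)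
      symm := ⟨fun v w h => ⟨h.1.symm, by rw [pair_comm]; exact h.2⟩⟩
      loopless := ⟨fun v h => h.1 rfl⟩ }
  have hGadj : ∀ v w, G.Adj v w ↔ v ≠ w ∧ ((setDeg F {v, w} : ℝ) ≤ μ * n) := fun v w => Iff.rfl
  -- the incompatibility system
  let I : SimpleGraph (Sym2 (Fin n)) :=
    { Adj := fun e f => e ∈ G.edgeSet ∧ f ∈ G.edgeSet ∧ Disjoint e.toFinset f.toFinset ∧
        e.toFinset ∪ f.toFinset ∈ F
      symm := ⟨fun e f h => ⟨h.2.1, h.1, h.2.2.1.symm, by rw [union_comm]; exact h.2.2.2⟩⟩
      loopless := ⟨fun e h => by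
        obtain ⟨h1, -, h2, -⟩ := h
        induction e with
        | h a b =>
          rw [disjoint_self] at h2
          have : a ∈ (s(a, b)).toFinset := by simp
          rw [h2] at this
          simp at this⟩ }
  have hdeg : ∀ v : Fin n, (Fintype.card (Fin n) : ℝ) ≤ 2 * (G.degree v : ℝ) := by
    intro v
    have h1 : G.degree v = ((univ : Finset (Fin n)).filter (fun w => G.Adj v w)).card := by
      rw [← SimpleGraph.card_neighborFinset_eq_degree]
      congr 1
      ext w
      simp
    have h2 : ((univ : Finset (Fin n)).filter (fun w => G.Adj v w)).card +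
        ((univ : Finset (Fin n)).filter (fun w => w ≠ v ∧ μ * (n : ℝ) < (setDeg F {v, w} : ℝ))).card
        + 1 ≥ n := by
      have hcov : (univ : Finset (Fin n)) ⊆ ((univ : Finset (Fin n)).filter (fun w => G.Adj v w)) ∪
          ((univ : Finset (Fin n)).filter
            (fun w => w ≠ v ∧ μ * (n : ℝ) < (setDeg F {v, w} : ℝ))) ∪ {v} := by
        intro w _
        simp only [mem_union, mem_filter, mem_univ, true_and, mem_singleton, hGadj]
        by_cases hw : w = v
        · right; exact hw
        · left
          by_cases h : (setDeg F {v, w} : ℝ) ≤ μ * n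
          · left; exact ⟨fun h => hw h.symm, h⟩
          · right; exact ⟨hw, not_le.1 h⟩
      have h3 := card_le_card hcov
      have h4 := card_union_le (((univ : Finset (Fin n)).filter (fun w => G.Adj v w)) ∪
          ((univ : Finset (Fin n)).filter
            (fun w => w ≠ v ∧ μ * (n : ℝ) < (setDeg F {v, w} : ℝ)))) {v}
      have h5 := card_union_le ((univ : Finset (Fin n)).filter (fun w => G.Adj v w))
          ((univ : Finset (Fin n)).filter
            (fun w => w ≠ v ∧ μ * (n : ℝ) < (setDeg F {v, w} : ℝ)))
      have h6 : ({v} : Finset (Fin n)).card = 1 := card_singleton v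
      have h7 : (univ : Finset (Fin n)).card = n := by simp
      omega
    have h3 := hheavy v
    have h4 : n ≤ 2 * G.degree v := by
      rw [h1]
      omega
    rw [Fintype.card_fin]
    exact_mod_cast h4
  have hIG : ∀ e e' : Sym2 (Fin n), I.Adj e e' → e ∈ G.edgeSet ∧ e' ∈ G.edgeSet :=
    fun e e' h => ⟨h.1, h.2.1⟩
  have hbound : ∀ e : Sym2 (Fin n),
      ((I.neighborSet e).ncard : ℝ) ≤ μ * (Fintype.card (Fin n) : ℝ) := by
    intro e
    rw [Fintype.card_fin]
    by_cases he : e ∈ G.edgeSet
    · induction e with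
      | h a b =>
        have hab : G.Adj a b := he
        have hle : (I.neighborSet s(a, b)).ncard ≤ setDeg F {a, b} := by
          rw [setDeg, ← Set.ncard_coe_finset]
          apply Set.ncard_le_ncard_of_injOn (fun f => (s(a, b)).toFinset ∪ f.toFinset)
          · intro f hf
            have hf' : I.Adj s(a, b) f := hf
            simp only [coe_filter, Set.mem_ofPred_eq]
            refine ⟨hf'.2.2.2, ?_⟩
            intro x hx
            apply mem_union_left
            simpa using hx
          · intro f hf g hg hfg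
            have hf' : I.Adj s(a, b) f := hf
            have hg' : I.Adj s(a, b) g := hg
            have h1 : f.toFinset = g.toFinset := by
              have e1 : f.toFinset = ((s(a, b)).toFinset ∪ f.toFinset) \ (s(a, b)).toFinset := by
                rw [union_sdiff_cancel_left hf'.2.2.1]
              have e2 : g.toFinset = ((s(a, b)).toFinset ∪ g.toFinset) \ (s(a, b)).toFinset := by
                rw [union_sdiff_cancel_left hg'.2.2.1]
              rw [e1, e2]
              exact congrArg (· \ (s(a, b)).toFinset) hfg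
            apply Sym2.ext
            intro x
            have := congrArg (fun s => x ∈ s) h1
            simpa using this
        have h2 := hab.2
        calc ((I.neighborSet s(a, b)).ncard : ℝ) ≤ (setDeg F {a, b} : ℝ) := by exact_mod_cast hle
          _ ≤ μ * n := h2
    · have : I.neighborSet e = ∅ := by
        ext f
        simp only [SimpleGraph.mem_neighborSet, Set.mem_empty_iff_false, iff_false]
        intro h
        exact he h.1
      rw [this]
      simp only [Set.ncard_empty, Nat.cast_zero]
      positivity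
  obtain ⟨u, p, hp, hpI⟩ := hmain (Fin n) G (by rw [Fintype.card_fin]; omega) hdeg I hIG hbound
  obtain ⟨σ, hσ⟩ := perm_of_walk p hp
  refine ⟨σ, ?_⟩
  intro i j hdisj hmem
  have hi := hσ i
  have hj := hσ j
  have e1 : (s(σ i, σ (finRotate n i))).toFinset = cedge σ i := by
    ext x; simp [cedge]
  have e2 : (s(σ j, σ (finRotate n j))).toFinset = cedge σ j := by
    ext x; simp [cedge]
  apply hpI _ hi _ hj
  refine ⟨p.edges_subset_edgeSet hi, p.edges_subset_edgeSet hj, ?_, ?_⟩
  · rw [e1, e2]; exact hdisj
  · rw [e1, e2]; exact hmem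

/-- A family of 4-element subsets of `Fin n` with respect to which `K_n` has no
`(2,2)`-acceptable Hamilton cycle. -/
def Blocking {n : ℕ} (F : Finset (Finset (Fin n))) : Prop :=
  (∀ X ∈ F, X.card = 4) ∧ ∀ σ : Equiv.Perm (Fin n), ¬ Acceptable F σ

theorem finRotate_ne {n : ℕ} (hn : 4 ≤ n) (i : Fin n) : finRotate n i ≠ i ∧
    finRotate n (finRotate n i) ≠ i ∧ finRotate n (finRotate n (finRotate n i)) ≠ i := by
  obtain ⟨m, rfl⟩ : ∃ m, n = m + 4 := ⟨n - 4, by omega⟩
  have h : ∀ j : Fin (m + 4), ((finRotate (m + 4) j : Fin (m + 4)) : ℕ) =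
      if (j : ℕ) = m + 3 then 0 else (j : ℕ) + 1 := by
    intro j
    rw [coe_finRotate]
    by_cases hj : j = Fin.last (m + 3)
    · subst hj; simp
    · rw [if_neg hj, if_neg]
      intro h
      exact hj (Fin.ext h)
  have hi := i.2
  refine ⟨fun h1 => ?_, fun h1 => ?_, fun h1 => ?_⟩
  · have h2 := congrArg Fin.val h1
    rw [h] at h2
    split_ifs at h2 <;> omega
  · have h2 := congrArg Fin.val h1
    rw [h, h] at h2
    split_ifs at h2 <;> omega
  · have h2 := congrArg Fin.val h1
    rw [h, h, h] at h2
    split_ifs at h2 <;> omega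

/-- For two vertices `a ≠ b` every Hamilton cycle has two disjoint edges whose union is a 4-set
containing `a` and `b`. -/
theorem exists_two_edges {n : ℕ} (hn : 4 ≤ n) (σ : Equiv.Perm (Fin n)) (a b : Fin n)
    (hab : a ≠ b) : ∃ i j : Fin n, Disjoint (cedge σ i) (cedge σ j) ∧
      (cedge σ i ∪ cedge σ j).card = 4 ∧ a ∈ cedge σ i ∪ cedge σ j ∧
      b ∈ cedge σ i ∪ cedge σ j := by
  -- position sets
  have key : ∀ i j : Fin n, j ≠ i → finRotate n i ≠ j → finRotate n j ≠ i →
      Disjoint (cedge σ i) (cedge σ j) ∧ (cedge σ i ∪ cedge σ j).card = 4 := by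
    intro i j h1 h2 h3
    have hdisj : Disjoint (cedge σ i) (cedge σ j) := by
      rw [cedge, cedge, disjoint_left]
      intro x hx hx'
      simp only [mem_insert, mem_singleton] at hx hx'
      rcases hx with rfl | rfl <;> rcases hx' with h | h
      · exact h1 (σ.injective h).symm
      · exact h3 (σ.injective h).symm
      · exact h2 (σ.injective h)
      · exact h1 ((finRotate n).injective (σ.injective h)).symm
    refine ⟨hdisj, ?_⟩
    rw [card_union_of_disjoint hdisj, cedge, cedge, card_pair, card_pair]
    · intro h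
      exact (finRotate_ne hn j).1 (σ.injective h).symm
    · intro h
      exact (finRotate_ne hn i).1 (σ.injective h).symm
  set i := σ.symm a with hi
  set j := σ.symm b with hj
  have ha : σ i = a := by rw [hi]; simp
  have hb : σ j = b := by rw [hj]; simp
  have hij : j ≠ i := by
    intro h
    apply hab
    rw [← ha, ← hb, h]
  by_cases h1 : finRotate n i = j
  · refine ⟨i, finRotate n j, ?_⟩
    obtain ⟨h2, h3⟩ := key i (finRotate n j) (by rw [← h1]; exact (finRotate_ne hn i).2.1)
      (by rw [h1]; exact (finRotate_ne hn j).1.symm)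
      (by rw [← h1]; exact (finRotate_ne hn i).2.2)
    refine ⟨h2, h3, ?_, ?_⟩
    · apply mem_union_left
      simp [cedge, ha]
    · apply mem_union_left
      simp [cedge, h1, hb]
  · by_cases h2 : finRotate n j = i
    · refine ⟨j, finRotate n i, ?_⟩
      obtain ⟨h3, h4⟩ := key j (finRotate n i) (by rw [← h2]; exact (finRotate_ne hn j).2.1)
        (by rw [h2]; exact (finRotate_ne hn i).1.symm)
        (by rw [← h2]; exact (finRotate_ne hn j).2.2)
      refine ⟨h3, h4, ?_, ?_⟩
      · apply mem_union_left
        simp [cedge, h2, ha]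
      · apply mem_union_left
        simp [cedge, hb]
    · refine ⟨i, j, ?_⟩
      obtain ⟨h3, h4⟩ := key i j hij h1 h2
      refine ⟨h3, h4, ?_, ?_⟩
      · apply mem_union_left
        simp [cedge, ha]
      · apply mem_union_right
        simp [cedge, hb]

end Pool.Agent.V11125.Acc
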